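import Mathlib
import Pool.Agent.MP_12ef2a_an.Base2
import Pool.Agent.MP_12ef2a_an.Transfer
import Pool.Agent.MP_12ef2a_an.Contra

set_option autoImplicit false

open MeasureTheory Polynomial

namespace Pool.Agent.Results.MP_12ef2a_an.NoExtension

open Pool.Agent.MP_12ef2a_an

/-- The Hilbert space `L²(0, a)`. -/
abbrev L2 (a : ℝ) : Type := Lp ℂ 2 (volume.restrict (Set.Ioo (0:ℝ) a))

/-- The subspace `E_l = {p(x) exp(i l x) : deg p < k(l)}` of `L²(0, a)` attached to a divisor
`k`. -/
noncomputable def expSpace (a : ℝ) (k : ℂ → ℕ) (l : ℂ) : Submodule ℂ (L2 a) where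
  carrier := {f | ∃ p : ℂ[X], p.degree < (k l : WithBot ℕ) ∧
    (f : ℝ → ℂ) =ᵐ[volume.restrict (Set.Ioo (0:ℝ) a)]
      fun x => p.eval (x : ℂ) * Complex.exp (Complex.I * l * x)}
  add_mem' := by
    rintro f g ⟨p, hp, hf⟩ ⟨q, hq, hg⟩
    refine ⟨p + q, (degree_add_le _ _).trans_lt (max_lt hp hq), ?_⟩
    filter_upwards [Lp.coeFn_add f g, hf, hg] with x h1 h2 h3
    rw [h1, Pi.add_apply, h2, h3, eval_add]
    ring
  zero_mem' := by
    refine ⟨0, by simp, ?_⟩
    filter_upwards [Lp.coeFn_zero ℂ 2 (volume.restrict (Set.Ioo (0:ℝ) a))] with x h1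
    rw [h1]
    simp
  smul_mem' := by
    rintro c f ⟨p, hp, hf⟩
    refine ⟨c • p, (degree_smul_le _ _).trans_lt hp, ?_⟩
    filter_upwards [Lp.coeFn_smul c f, hf] with x h1 h2
    rw [h1, Pi.smul_apply, h2, eval_smul, smul_eq_mul, smul_eq_mul]
    ring

/-- The closed linear span of all the subspaces `E_l` in `L²(0, a)`. -/
noncomputable def closedSpan (a : ℝ) (k : ℂ → ℕ) : Submodule ℂ (L2 a) :=
  (⨆ l, expSpace a k l).topologicalClosure

/-- The family of the subspaces `E_l` is an unconditional basis of `H`: all of them lie in `H`, and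
every `f` in `H` has a unique expansion `f = ∑ g l` with `g l` in `E_l`, the series converging
unconditionally (`HasSum`). -/
def IsUnconditionalBasis (a : ℝ) (k : ℂ → ℕ) (H : Submodule ℂ (L2 a)) : Prop :=
  (∀ l, expSpace a k l ≤ H) ∧
    ∀ f ∈ H, ∃! g : ℂ → L2 a, (∀ l, g l ∈ expSpace a k l) ∧ HasSum g f

/-- The two descriptions of the subspaces agree. -/
theorem expSpace_eq (a : ℝ) (ha : 0 < a) (k : ℂ → ℕ) (l : ℂ) :
    expSpace a k l = expSub (embA a) (fun z => k (2 / a * z)) (a / 2 * l) := by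
  ext f
  rw [mem_expSub_embA a ha k l f]
  rfl

theorem expSub_eq (a : ℝ) (ha : 0 < a) (k : ℂ → ℕ) (z : ℂ) :
    expSub (embA a) (fun z => k (2 / a * z)) z = expSpace a k (2 / a * z) := by
  have ha' : (a : ℂ) ≠ 0 := by exact_mod_cast ha.ne'
  rw [expSpace_eq a ha k]
  congr 1
  field_simp

theorem basis_iff (a : ℝ) (ha : 0 < a) (k : ℂ → ℕ) (H : Submodule ℂ (L2 a)) :
    IsUnconditionalBasis a k H ↔
      IsUnconditionalBasisOf (expSub (embA a) (fun z => k (2 / a * z))) H := by
  have ha' : (a : ℂ) ≠ 0 := by exact_mod_cast ha.ne'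
  have h1 : ∀ z : ℂ, (a / 2 : ℂ) * (2 / a * z) = z := fun z => by field_simp
  have h2 : ∀ z : ℂ, (2 / a : ℂ) * (a / 2 * z) = z := fun z => by field_simp
  constructor
  · intro h
    refine uncond_reindex (expSub (embA a) (fun z => k (2 / a * z))) (fun l : ℂ => (a / 2 : ℂ) * l)
      ?_ ?_ H ?_
    · intro x y hxy
      have := congrArg (fun z => (2 / a : ℂ) * z) hxy
      simpa only [h2] using this
    · intro x hx
      exact absurd ⟨2 / a * x, h1 x⟩ hx
    · have e : (fun l : ℂ => expSub (embA a) (fun z => k (2 / a * z)) ((a / 2 : ℂ) * l)) =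
          expSpace a k := by
        funext l
        exact (expSpace_eq a ha k l).symm
      rw [e]
      exact h
  · intro h
    refine uncond_reindex (expSpace a k) (fun z : ℂ => (2 / a : ℂ) * z) ?_ ?_ H ?_
    · intro x y hxy
      have := congrArg (fun z => (a / 2 : ℂ) * z) hxy
      simpa only [h1] using this
    · intro x hx
      exact absurd ⟨a / 2 * x, h2 x⟩ hx
    · have e : (fun z : ℂ => expSpace a k ((2 / a : ℂ) * z)) =
          expSub (embA a) (fun z => k (2 / a * z)) := by
        funext z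
        exact (expSub_eq a ha k z).symm
      rw [e]
      exact h

theorem closedSpan_eq (a : ℝ) (ha : 0 < a) (k : ℂ → ℕ) :
    closedSpan a k = (⨆ z, expSub (embA a) (fun z => k (2 / a * z)) z).topologicalClosure := by
  unfold closedSpan
  congr 1
  apply le_antisymm
  · apply iSup_le
    intro l
    rw [expSpace_eq a ha k l]
    exact le_iSup (fun z => expSub (embA a) (fun z => k (2 / a * z)) z) (a / 2 * l)
  · apply iSup_le
    intro z
    rw [expSub_eq a ha k z]
    exact le_iSup (fun l => expSpace a k l) (2 / a * z)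

/-- For every `a > 0` there is a divisor `k` whose family of subspaces is an unconditional basis of
its closed span in `L²(0, a)`, but no divisor `k' ≥ k` gives an unconditional basis of
`L²(0, a)`. -/
theorem result (a : ℝ) (ha : 0 < a) :
    ∃ k : ℂ → ℕ, IsUnconditionalBasis a k (closedSpan a k) ∧
      ∀ k' : ℂ → ℕ, (∀ l, k l ≤ k' l) → ¬ IsUnconditionalBasis a k' ⊤ := by
  have ha' : (a : ℂ) ≠ 0 := by exact_mod_cast ha.ne'
  have hemb := isEmb_embA a ha
  obtain ⟨b, hb, hb2⟩ : ∃ b : ℕ, (b : ℝ) = (100 : ℝ) ^ 8 ∧ 2 ≤ b :=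
    ⟨100 ^ 8, by norm_num, by norm_num⟩
  have h1 : ∀ z : ℂ, (a / 2 : ℂ) * (2 / a * z) = z := fun z => by field_simp
  have hk : (fun z : ℂ => (fun l : ℂ => div0 b (a / 2 * l)) (2 / a * z)) =
      div0 b := by
    funext z
    simp only [h1]
  refine ⟨fun l => div0 b (a / 2 * l), ?_, ?_⟩
  · rw [basis_iff a ha, closedSpan_eq a ha, hk]
    exact base hemb 100 le_rfl b hb
  · intro k' hk' hcon
    rw [basis_iff a ha] at hcon
    have hge : ∀ z : ℂ, div0 b z ≤ (fun z => k' (2 / a * z)) z := by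
      intro z
      have := hk' (2 / a * z)
      simp only [h1] at this
      exact this
    refine not_extendable hemb b hb2 (fun z => k' (2 / a * z)) ?_ ?_ ?_ hcon
    · intro n hn
      obtain ⟨m, rfl⟩ : ∃ m, n = m + 1 := ⟨n - 1, by omega⟩
      have := hge (pt b (0, m))
      rw [div0_pt0 _ hb2] at this
      exact this
    · intro n hn
      obtain ⟨m, rfl⟩ : ∃ m, n = m + 1 := ⟨n - 1, by omega⟩
      have := hge (pt b (1, m))
      rw [div0_pt1 _ hb2] at this
      exact this
    · intro n hn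
      obtain ⟨m, rfl⟩ : ∃ m, n = m + 1 := ⟨n - 1, by omega⟩
      have := hge (pt b (2, m))
      rw [div0_pt2 _ hb2] at this
      exact this

end Pool.Agent.Results.MP_12ef2a_an.NoExtension
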